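import Pool.Agent.H992.SF.GDefs

/-! SG13: all classes, from the removal of one class (MP_a28cf0_nt). -/

set_option autoImplicit false
open MeasureTheory Filter Topology Complex ProbabilityTheory
open scoped ContDiff ENNReal

namespace Pool.Agent.H122.SG

open Pool.Agent.H992.SF
open Pool.Agent.W745.RW (TF)
open Pool.Agent.N661.BR (MW lin shift IsStationary IsErgodic IsRandomWave)
open Pool.Agent.N661.BH (HP area frames loc mv LocalLaws)
open Pool.Agent.N814.BHM (P mass)
open Pool.Agent.N814.BHASM (Hyp ex)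
open Pool.Agent.H992.LB (eγ eX SX nn fs)

theorem eγ_zero (f : MW) : eγ 0 f = 1 := by
  unfold eγ
  simp [Pool.Agent.H992.LB.val]

theorem eX_zero (lam : ℝ) (u : ℂ → ℝ) (p : ℂ × (ℝ × Bool)) : eX lam u 0 p = 1 := by
  unfold eX SX
  simp

/-- the functions of the classes below `r` are removed -/
def cut {d : ℕ} (κ : Fin d → ℕ) (r : ℕ) (τ : Fin d → ℂ →₀ ℝ) : Fin d → ℂ →₀ ℝ :=
  fun i => if κ i < r then 0 else τ i

/-- only the functions of the class `r` are kept -/
def keep {d : ℕ} (κ : Fin d → ℕ) (r : ℕ) (τ : Fin d → ℂ →₀ ℝ) : Fin d → ℂ →₀ ℝ :=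
  fun i => if κ i = r then τ i else 0

theorem cut_zero {d : ℕ} (κ : Fin d → ℕ) (τ : Fin d → ℂ →₀ ℝ) : cut κ 0 τ = τ := by
  funext i
  unfold cut
  rw [if_neg (Nat.not_lt_zero _)]

theorem cut_split {d : ℕ} (κ : Fin d → ℕ) (r : ℕ) (τ : Fin d → ℂ →₀ ℝ) :
    (fun i => keep κ r τ i + cut κ (r + 1) τ i) = cut κ r τ := by
  funext i
  unfold cut keep
  by_cases h1 : κ i = r
  · rw [if_pos h1, if_pos (by omega), if_neg (by omega), add_zero]
  · by_cases h2 : κ i < r
    · rw [if_neg h1, if_pos (by omega), if_pos h2, add_zero]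
    · rw [if_neg h1, if_neg (by omega), if_neg h2, zero_add]

theorem filter_succ {d : ℕ} (κ : Fin d → ℕ) (r : ℕ) (c : Fin d → ℂ) :
    ∏ i ∈ Finset.univ.filter (fun i : Fin d => κ i < r + 1), c i =
      (∏ i ∈ Finset.univ.filter (fun i : Fin d => κ i < r), c i) *
        ∏ i, (if κ i = r then c i else 1) := by
  rw [Finset.prod_filter, Finset.prod_filter, ← Finset.prod_mul_distrib]
  refine Finset.prod_congr rfl fun i _ => ?_
  by_cases h1 : κ i = r
  · rw [if_pos (by omega), if_neg (by omega), if_pos h1, one_mul]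
  · by_cases h2 : κ i < r
    · rw [if_pos (by omega), if_pos h2, if_neg h1, mul_one]
    · rw [if_neg (by omega), if_neg h2, if_neg h1, one_mul]

theorem iter (h : S_PEEL2) (d : ℕ) (Ω : Set ℂ) (lam : Fin d → ℕ → ℝ) (u : Fin d → ℕ → ℂ → ℝ)
    (hd : 0 < d) (hHyp : ∀ i, Hyp Ω (lam i) (u i)) (hSt : Struct lam)
    (γ : Measure MW) (hγ : IsProbabilityMeasure γ) (hw : IsRandomWave γ)
    (κ : Fin d → ℕ) (hκ : ∀ i j, κ i < κ j → Tendsto (fun n => lam j n / lam i n) atTop (𝓝 0))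
    (hcl : ∀ a : ℕ, ∀ τ, On (Finset.univ.filter fun i => κ i = a) τ →
      Tendsto (fun n => ∫ p, eXJ (fun i => lam i n) (fun i => u i n) τ p ∂(P Ω)) atTop
        (𝓝 (∏ i, ∫ f, eγ (τ i) f ∂γ)))
    (ψ : ℂ → ℝ) (hψ : Ad Ω ψ) (τ : Fin d → ℂ →₀ ℝ) (r : ℕ) :
    Tendsto (fun n => (∫ p, (ψ p.1 : ℂ) * eXJ (fun i => lam i n) (fun i => u i n) τ p ∂(P Ω)) -
      (∏ i ∈ Finset.univ.filter (fun i : Fin d => κ i < r), ∫ f, eγ (τ i) f ∂γ) *
        ∫ p, (ψ p.1 : ℂ) * eXJ (fun i => lam i n) (fun i => u i n) (cut κ r τ) p ∂(P Ω))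
      atTop (𝓝 0) := by
  induction r with
  | zero =>
    have h1 : Finset.univ.filter (fun i : Fin d => κ i < 0) = ∅ :=
      Finset.filter_eq_empty_iff.2 fun i _ => Nat.not_lt_zero _
    simp only [h1, cut_zero, Finset.prod_empty, one_mul, sub_self]
    exact tendsto_const_nhds
  | succ r ih =>
    have hp := h d Ω lam u hd hHyp hSt γ hγ hw (Finset.univ.filter fun i => κ i = r)
      (Finset.univ.filter fun i => r < κ i) (by
        intro i hi j hj
        rw [Finset.mem_filter] at hi hj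
        exact hκ i j (by rw [hi.2]; exact hj.2)) (hcl r) ψ hψ (cut κ (r + 1) τ) (by
        intro i hi
        rw [Finset.mem_filter] at hi
        unfold cut
        rw [if_pos]
        by_contra hcon
        exact hi ⟨Finset.mem_univ _, by omega⟩) (keep κ r τ) (by
        intro i hi
        rw [Finset.mem_filter] at hi
        unfold keep
        rw [if_neg]
        intro hcon
        exact hi ⟨Finset.mem_univ _, hcon⟩)
    rw [cut_split κ r τ] at hp
    have e1 : (∏ i, ∫ f, eγ (keep κ r τ i) f ∂γ) =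
        ∏ i, (if κ i = r then ∫ f, eγ (τ i) f ∂γ else 1) := by
      refine Finset.prod_congr rfl fun i _ => ?_
      unfold keep
      by_cases hi : κ i = r
      · rw [if_pos hi, if_pos hi]
      · rw [if_neg hi, if_neg hi]
        simp only [eγ_zero]
        simp
    rw [e1] at hp
    have h2 := hp.const_mul
      (∏ i ∈ Finset.univ.filter (fun i : Fin d => κ i < r), ∫ f, eγ (τ i) f ∂γ)
    have h3 := ih.add h2
    rw [mul_zero, add_zero] at h3
    refine h3.congr fun n => ?_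
    rw [filter_succ κ r (fun i => ∫ f, eγ (τ i) f ∂γ)]
    ring

theorem all2 (h : S_PEEL2) : S_ALL2 := by
  intro d Ω lam u hd hHyp hSt γ hγ hw κ hκ hcl ψ hψ τ
  obtain ⟨r, hr⟩ : ∃ r : ℕ, ∀ i, κ i < r :=
    ⟨Finset.univ.sup κ + 1, fun i => Nat.lt_succ_of_le (Finset.le_sup (Finset.mem_univ i))⟩
  have key := iter h d Ω lam u hd hHyp hSt γ hγ hw κ hκ hcl ψ hψ τ r
  have e1 : Finset.univ.filter (fun i : Fin d => κ i < r) = Finset.univ :=
    Finset.filter_true_of_mem fun i _ => hr i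
  have e2 : ∀ n, (∫ p, (ψ p.1 : ℂ) * eXJ (fun i => lam i n) (fun i => u i n) (cut κ r τ) p
      ∂(P Ω)) = ∫ p, (ψ p.1 : ℂ) ∂(P Ω) := by
    intro n
    refine integral_congr_ae (Filter.Eventually.of_forall fun p => ?_)
    have e3 : eXJ (fun i => lam i n) (fun i => u i n) (cut κ r τ) p = 1 := by
      unfold eXJ
      refine Finset.prod_eq_one fun i _ => ?_
      unfold cut
      rw [if_pos (hr i)]
      exact eX_zero _ _ _
    show (ψ p.1 : ℂ) * eXJ (fun i => lam i n) (fun i => u i n) (cut κ r τ) p = (ψ p.1 : ℂ)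
    rw [e3, mul_one]
  rw [e1] at key
  simp only [e2] at key
  have k2 := key.add_const ((∏ i, ∫ f, eγ (τ i) f ∂γ) * ∫ p, (ψ p.1 : ℂ) ∂(P Ω))
  rw [zero_add] at k2
  refine k2.congr fun n => ?_
  rw [sub_add_cancel]

end Pool.Agent.H122.SG
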